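import Pool.Agent.TH128.SYZ.Main

set_option autoImplicit false

/-!
# Primitive symplectic fourfolds with a nontrivial nef line bundle that induces no fibration

For arbitrary elliptic curves `E₁`, `E₂` there is a primitive symplectic variety `X` of dimension `4`,
a quotient of a torus isogenous to `E₁² × E₂²` by the dihedral group `D₄` of order `8`, and
a nontrivial (not isomorphic to `O_X`) line bundle `L` on `X` which is nef, with `q_X(L) = 0`, and
induces no holomorphic Lagrangian fibration (and no other map to a variety of positive dimension). So
the statement Q1 is not true as it is worded, for all nontrivial nef `L` with `q_X(L) = 0`: `L²` is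
trivial, and `X` has fundamental group of order two. What remains open is Q1 for the line bundles
`L` whose class in `H²(X, ℚ)` is not zero. Together with the theorem on torus quotients in the
starting files (every non-torsion nef `L` with `q_X(L) = 0` on a primitive symplectic torus quotient
induces a Lagrangian fibration) this determines for which torus quotients Q1 is true: for
those with `H_1(X, ℤ) = 0`, which are not all of them. Smooth holomorphic symplectic manifolds are
simply connected, so this phenomenon only exists for singular primitive symplectic varieties.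

The example: let `M = ℤ ω₁ + ℤ ω₂`, `N = ℤ η₁ + ℤ η₂` be lattices in `ℂ`.  The group `D₄` acts on
`V = W ⊕ W`, `W = ℂ²`, by signed permutations of the two summands. The only invariant
`2`-forms are the multiples of the sum of the symplectic forms of the summands. Let `Λ` be the
lattice of all `((x₁, y₁), (x₂, y₂))` with `x₁, x₂ ∈ M`, `y₁, y₂ ∈ N` and `y₁ + y₂ ∈ 2 N`, and `t` the
vector `((ω₁ / 2, η₁), (ω₁ / 2, 0))`.  Then `2 t ∈ Λ`, and `t` is invariant modulo `Λ` under `D₄`.
Let `Γ` be the group of the transformations `v ↦ g v + b` with `g ∈ D₄` a rotation and
`b ∈ Λ`, or `g` a reflection and `b ∈ t + Λ`. The latter transformations have no fixed points: for the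
reflections of the form `(w₁, w₂) ↦ (w₁, -w₂)` because of `ω₁ / 2 ∉ M`, and for those of the form
`(w₁, w₂) ↦ (w₂, w₁)` because of `η₁ ∉ 2 N`. So `X = V / Γ` has the étale double cover
`V / Γ⁺`, with `Γ⁺` the subgroup of the transformations with a rotation as linear part, and the
character of `Γ / Γ⁺` defines the line bundle `L`. (The double cover has four linearly independent
`2`-forms.)

The framework is that of the theorem in the starting files: `latt`, `IsPrimitiveSymplectic`,
`LineBundle`, `LineBundle.pow` and `LineBundle.IsTrivial` are defined in
`Pool.Agent.W594.SYZ.Defs2`; `IsChernForm`, `IsNefForm`, `IsDegenerateForm`,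
`IsLagrangianFibration` and `Induces` in `Pool.Agent.W594.SYZ.TQDefs`; `V4`, `lat`,
`LattBetween`, `fixIndex` and `SeparatesFibres` in `Pool.Agent.TH128.SYZ.Defs`.
-/

namespace Pool.Agent.Results.MP_63735c_ag.TorsionBundle

open Pool.Agent.W594.SYZ2 Pool.Agent.TH128.SYZ

/-- For all lattices `M`, `N` in `ℂ` there are a primitive symplectic variety `X = V / Γ`, `V = ℂ⁴`,
with translation lattice between `2 (M ⊕ N)²` and `(M ⊕ N)²`, such that the elements of `Γ` with a
fixed point generate a subgroup of index two (so the fundamental group of `X` is of order two, by
a theorem of Armstrong), and a line bundle `L` on `X` which is nontrivial, with `L²` trivial, nef,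
with `q_X(L) = 0`, and

* no holomorphic Lagrangian fibration `V / Γ → W / Δ` given by a linear map `π` is induced by `L`;
* every map `f : X → B` to a set `B` is constant if the sections of some power of `L` separate its
  fibres. So no power of `L` is isomorphic to `f^* A` for a holomorphic map `f` to a variety `B` of
  positive dimension and an ample line bundle `A` on `B`. -/
theorem result (ω η : Module.Basis (Fin 2) ℝ ℂ) :
    ∃ (Γ : Subgroup (V4 ≃ᵃ[ℂ] V4)) (L : LineBundle Γ),
      LattBetween Γ ω η ∧ IsPrimitiveSymplectic Γ ∧ fixIndex Γ = 2 ∧
      ¬ L.IsTrivial ∧ (L.pow 2).IsTrivial ∧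
      (∃ H, IsChernForm L H ∧ IsNefForm H ∧ IsDegenerateForm H) ∧
      (∀ (W : Type) [NormedAddCommGroup W] [NormedSpace ℂ W] (Δ : Subgroup (W ≃ᵃ[ℂ] W))
        (π : V4 →ₗ[ℂ] W), IsLagrangianFibration Γ Δ π → ¬ Induces L Δ π) ∧
      ∀ (B : Type) (f : V4 → B), SeparatesFibres L f → ∀ v w, f v = f w :=
  main ω η

end Pool.Agent.Results.MP_63735c_ag.TorsionBundle
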